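import Mathlib
import Pool.Agent.Q195.ASQ.Defs
import Pool.Agent.Q195.ASQ.Main

set_option autoImplicit false

open scoped ZeroAtInfty

namespace Pool.Agent.Results.MP_b5276a_an.SquareOfC0

open Q195.ASQ

/-- The real Banach space `c₀` (the space `C₀(ℕ, ℝ)` of the real sequences tending to zero, with
the supremum norm) is almost square, but its symmetric projective tensor square
`SymProj 2 C₀(ℕ, ℝ)`, the completion of the algebraic symmetric tensor square for the symmetric
projective norm, is not almost square. -/
theorem result : CompleteSpace C₀(ℕ, ℝ) ∧ IsASQ C₀(ℕ, ℝ) ∧ ¬ IsASQ (SymProj 2 C₀(ℕ, ℝ)) :=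
  ⟨inferInstance, asq_c0, not_asq⟩

end Pool.Agent.Results.MP_b5276a_an.SquareOfC0
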